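import Pool.Agent.Q80.KT.Stm

/-! # Job KT-EXIT2: last exit from one ball, first entrance into the other -/

open Finset MeasureTheory Filter Topology
open scoped Classical ENNReal NNReal

noncomputable section

namespace Q210.KT.EXIT2

open Pool.Agent.Q80.KT

theorem mem_ball' {n : ℕ} (G : SimpleGraph (Fin n)) (v : Fin n) (r : ℕ) (w : Fin n) :
    w ∈ ball G v r ↔ G.Reachable v w ∧ G.dist v w ≤ r := by
  simp [ball]

theorem mem_sph' {n : ℕ} (G : SimpleGraph (Fin n)) (v : Fin n) (r : ℕ) (w : Fin n) :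
    w ∈ sph G v r ↔ G.Reachable v w ∧ G.dist v w = r := by
  simp [sph]

theorem self_mem {n : ℕ} (G : SimpleGraph (Fin n)) (v : Fin n) (r : ℕ) : v ∈ ball G v r := by
  rw [mem_ball']
  exact ⟨SimpleGraph.Reachable.refl v, by simp⟩

theorem adj_mem {n : ℕ} (G : SimpleGraph (Fin n)) (v : Fin n) (r : ℕ) (x y : Fin n)
    (hx : x ∈ ball G v r) (hxy : G.Adj x y) (hns : x ∉ sph G v r) : y ∈ ball G v r := by
  rw [mem_ball'] at hx ⊢
  rw [mem_sph'] at hns
  have h1 : G.dist v x < r := lt_of_le_of_ne hx.2 fun h => hns ⟨hx.1, h⟩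
  refine ⟨hx.1.trans hxy.reachable, ?_⟩
  obtain ⟨p, hp⟩ := hx.1.exists_walk_length_eq_dist
  have h2 : G.dist v y ≤ (p.concat hxy).length := SimpleGraph.dist_le _
  rw [SimpleGraph.Walk.length_concat] at h2
  omega

theorem t_EXIT2 : S_EXIT2 := by
  intro n G v w r hr hvw hd
  let P : ℕ → Prop := fun m => ∃ g : ℕ → Fin n, g 0 ∈ ball G v r ∧ g m ∈ ball G w r ∧
    ∀ i < m, G.Adj (g i) (g (i + 1))
  have hP : ∃ m, P m := by
    obtain ⟨p⟩ := hvw
    refine ⟨p.length, p.getVert, ?_, ?_, ?_⟩
    · rw [p.getVert_zero]; exact self_mem G v r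
    · rw [p.getVert_length]; exact self_mem G w r
    · intro i hi
      exact p.adj_getVert_succ hi
  obtain ⟨g, h0, hm, hadj⟩ := Nat.find_spec hP
  set m := Nat.find hP with hmdef
  have hmin : ∀ k < m, ¬ P k := fun k hk => Nat.find_min hP hk
  have hne : ∀ x, x ∈ ball G v r → x ∉ ball G w r := fun x hx hx' => (Finset.disjoint_left.1 hd) hx hx'
  have hm1 : 1 ≤ m := by
    rcases Nat.eq_zero_or_pos m with h | h
    · exfalso
      rw [h] at hm
      exact hne _ h0 hm
    · exact h
  -- interior vertices are outside of both balls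
  have hin1 : ∀ i, 0 < i → i ≤ m → g i ∉ ball G v r := by
    intro i hi him hc
    refine hmin (m - i) (by omega) ⟨fun j => g (i + j), hc, ?_, ?_⟩
    · show g (i + (m - i)) ∈ _
      rw [Nat.add_sub_cancel' him]; exact hm
    · intro j hj
      exact hadj (i + j) (by omega)
  have hin2 : ∀ i, i < m → g i ∉ ball G w r := by
    intro i him hc
    exact hmin i him ⟨g, h0, hc, fun j hj => hadj j (by omega)⟩
  have hsymm : ∀ a b : Fin n, G.Adj a b → G.Adj b a := fun a b h => h.symm
  refine ⟨g 0, ?_, g m, ?_, ?_⟩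
  · by_contra hns
    exact hin1 1 one_pos hm1 (adj_mem G v r _ _ h0 (hadj 0 (by omega)) hns)
  · by_contra hns
    have h := hadj (m - 1) (by omega)
    rw [Nat.sub_add_cancel hm1] at h
    exact hin2 (m - 1) (by omega) (adj_mem G w r _ _ hm h.symm hns)
  · set U : Set (Fin n) := {z | z ∉ ball G v r ∧ z ∉ ball G w r} ∪ {g 0, g m} with hU
    have hmem : ∀ i, i ≤ m → g i ∈ U := by
      intro i hi
      rcases Nat.eq_zero_or_pos i with h | h
      · right; left; rw [h]
      · rcases Nat.lt_or_ge i m with h' | h'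
        · left; exact ⟨hin1 i h hi, hin2 i h'⟩
        · have : i = m := by omega
          right; right; rw [this]; rfl
    refine ⟨hmem 0 (Nat.zero_le _), ?_⟩
    have key : ∀ i, i ≤ m → Relation.ReflTransGen (fun a b => G.Adj a b ∧ a ∈ U ∧ b ∈ U) (g 0) (g i) := by
      intro i
      induction i with
      | zero => intro _; exact Relation.ReflTransGen.refl
      | succ i ih =>
        intro hi
        exact (ih (by omega)).tail ⟨hadj i (by omega), hmem i (by omega), hmem (i + 1) hi⟩
    exact key m le_rfl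

end Q210.KT.EXIT2
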