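import Pool.Agent.Q80.KT.Stm

/-! # Job KT-TWO: the two-sided bound -/

open Finset MeasureTheory Filter Topology
open scoped Classical ENNReal NNReal

noncomputable section

namespace Q210.KT.TWO

open Pool.Agent.Q80.KT
open Pool.Agent.Q287.SR

theorem ind_nonneg (P : Prop) : 0 ≤ ind P := by unfold ind; split_ifs <;> norm_num

theorem ind_pos' {P : Prop} (h : P) : ind P = 1 := if_pos h

theorem ind_neg' {P : Prop} (h : ¬ P) : ind P = 0 := if_neg h

theorem ind_mono {P Q : Prop} (h : P → Q) : ind P ≤ ind Q := by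
  by_cases h1 : P
  · rw [ind_pos' h1, ind_pos' (h h1)]
  · rw [ind_neg' h1]; exact ind_nonneg Q

theorem tau_nonneg {n : ℕ} {p : ℝ} (h0 : 0 ≤ p) (h1 : p ≤ 1) : 0 ≤ tau n p := by
  unfold tau
  split_ifs
  · exact Ex_nonneg h0 h1 fun G => ind_nonneg _
  · exact le_refl 0

theorem depOn_nd {n : ℕ} {D : Set (Sym2 (Fin n))} {f : SimpleGraph (Fin n) → ℝ} (h : DepOn D f) :
    DepOn (D ∩ {e | ¬ e.IsDiag}) f := by
  intro G G' hG
  apply h
  intro e he
  by_cases hd : e.IsDiag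
  · constructor <;> intro h' <;> exact absurd hd (SimpleGraph.not_isDiag_of_mem_edgeSet _ h')
  · exact hG e ⟨he, hd⟩

theorem depOn_mul {n : ℕ} {D D' : Set (Sym2 (Fin n))} {f g : SimpleGraph (Fin n) → ℝ} (h : DepOn D f)
    (h' : DepOn D' g) : DepOn (D ∪ D') (fun G => f G * g G) := by
  intro G G' hG
  show f G * g G = f G' * g G'
  rw [h G G' fun e he => hG e (Or.inl he), h' G G' fun e he => hG e (Or.inr he)]

theorem ball_sub {n : ℕ} (G : SimpleGraph (Fin n)) (v : Fin n) (r : ℕ) : ball G v (r - 1) ⊆ ball G v r := by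
  intro w hw
  simp only [ball, Finset.mem_filter, Finset.mem_univ, true_and] at hw ⊢
  exact ⟨hw.1, by omega⟩

/-- the part of `f` on the event that the balls are `s.1` and `s.2` -/
def Fp {n : ℕ} (v : Fin n) (r : ℕ) (f : SimpleGraph (Fin n) → ℝ) (s : Finset (Fin n) × Finset (Fin n))
    (G : SimpleGraph (Fin n)) : ℝ := f G * ind (ball G v r = s.1 ∧ ball G v (r - 1) = s.2)

theorem Fp_nonneg {n : ℕ} (v : Fin n) (r : ℕ) (f : SimpleGraph (Fin n) → ℝ) (hf : ∀ G, 0 ≤ f G)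
    (s : Finset (Fin n) × Finset (Fin n)) (G : SimpleGraph (Fin n)) : 0 ≤ Fp v r f s G :=
  mul_nonneg (hf G) (ind_nonneg _)

theorem Fp_ne {n : ℕ} {v : Fin n} {r : ℕ} {f : SimpleGraph (Fin n) → ℝ}
    {s : Finset (Fin n) × Finset (Fin n)} {G : SimpleGraph (Fin n)} (h : Fp v r f s G ≠ 0) :
    f G ≠ 0 ∧ ball G v r = s.1 ∧ ball G v (r - 1) = s.2 := by
  unfold Fp at h
  have h1 := left_ne_zero_of_mul h
  have h2 := right_ne_zero_of_mul h
  refine ⟨h1, ?_⟩
  by_contra hc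
  exact h2 (ind_neg' hc)

theorem sum_Fp {n : ℕ} (p : ℝ) (v : Fin n) (r : ℕ) (f : SimpleGraph (Fin n) → ℝ) (hr : 1 ≤ r) (h5 : S_BM) :
    ∑ s : Finset (Fin n) × Finset (Fin n), ∑ x : Fin n, (ind (x ∈ s.1 \ s.2) * Ex n p (Fp v r f s)) =
      Ex n p (fun G => f G * (sph G v r).card) := by
  have e1 : ∀ s : Finset (Fin n) × Finset (Fin n), ∑ x : Fin n, (ind (x ∈ s.1 \ s.2) * Ex n p (Fp v r f s)) =
      Ex n p (fun G => ((s.1 \ s.2).card : ℝ) * Fp v r f s G) := by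
    intro s
    rw [Ex_mul, ← Finset.sum_mul]
    congr 1
    have hh : (s.1 \ s.2) = (univ : Finset (Fin n)).filter fun i => i ∈ s.1 \ s.2 := by
      ext i; simp
    rw [hh, Finset.card_filter]
    push_cast
    refine Finset.sum_congr rfl fun i _ => ?_
    by_cases hi : i ∈ s.1 \ s.2
    · rw [← hh, ind_pos' hi, if_pos hi]
    · rw [← hh, ind_neg' hi, if_neg hi]
  rw [Finset.sum_congr rfl fun s _ => e1 s, ← Ex_sum]
  congr 1
  funext G
  rw [Finset.sum_eq_single (ball G v r, ball G v (r - 1))]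
  · unfold Fp
    rw [ind_pos' ⟨rfl, rfl⟩, (h5 n v r hr).1 G]
    ring
  · intro s _ hs
    unfold Fp
    rw [ind_neg', mul_zero, mul_zero]
    rintro ⟨h1, h2⟩
    exact hs (Prod.ext h1.symm h2.symm)
  · intro h
    exact absurd (Finset.mem_univ _) h

theorem Ex_zero_of {n : ℕ} (p : ℝ) {f : SimpleGraph (Fin n) → ℝ} (h : ∀ G, f G = 0) : Ex n p f = 0 := by
  unfold Ex
  exact Finset.sum_eq_zero fun G _ => by rw [h G, mul_zero]

theorem sym2_cases {n : ℕ} {e : Sym2 (Fin n)} {S S' T T' : Finset (Fin n)} (hS : S' ⊆ S) (hT : T' ⊆ T)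
    (hd : Disjoint S T) (h1 : e ∈ DS S S') (h2 : e ∈ DS T T') : ∃ a ∈ S', ∃ b ∈ T', e = s(a, b) := by
  induction e using Sym2.ind with
  | _ a b =>
    have hne : ∀ z, z ∈ S → z ∉ T := fun z hz hz' => (Finset.disjoint_left.1 hd) hz hz'
    simp only [DS, Set.mem_ofPred_eq, Sym2.mem_iff, forall_eq_or_imp, forall_eq, exists_eq_or_imp,
      exists_eq_left] at h1 h2
    rcases h1 with ⟨ha, hb⟩ | ha | hb
    · rcases h2 with ⟨ha', hb'⟩ | ha' | hb'
      · exact absurd ha' (hne _ ha)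
      · exact absurd (hT ha') (hne _ ha)
      · exact absurd (hT hb') (hne _ hb)
    · rcases h2 with ⟨ha', hb'⟩ | ha' | hb'
      · exact absurd ha' (hne _ (hS ha))
      · exact absurd (hT ha') (hne _ (hS ha))
      · exact ⟨a, ha, b, hb', rfl⟩
    · rcases h2 with ⟨ha', hb'⟩ | ha' | hb'
      · exact absurd hb' (hne _ (hS hb))
      · exact ⟨b, hb, a, ha', Sym2.eq_swap⟩
      · exact absurd (hT hb') (hne _ (hS hb))

theorem piece (h1 : S_IND) (h2 : S_OVL) (h3 : S_DET) (h4 : S_DEP) (h7 : S_RU) (h8 : S_TAU)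
    {n : ℕ} {p : ℝ} {v w : Fin n} {r M : ℕ} {f g : SimpleGraph (Fin n) → ℝ} (hp0 : 0 ≤ p) (hp1 : p < 1)
    (hr : 1 ≤ r) (hf : ∀ G, 0 ≤ f G) (hg : ∀ G, 0 ≤ g G) (bf : BM v r f) (bg : BM w r g)
    (Mf : ∀ G, M < (ball G v r).card → f G = 0) (Mg : ∀ G, M < (ball G w r).card → g G = 0)
    (s t : Finset (Fin n) × Finset (Fin n)) (x y : Fin n) (hST : Disjoint s.1 t.1) (hx : x ∈ s.1 \ s.2)
    (hy : y ∈ t.1 \ t.2) :
    Ex n p (fun G => (Fp v r f s G * Fp w r g t G) * ind (RU ({z | z ∉ s.1 ∧ z ∉ t.1} ∪ {x, y}) G x y)) *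
      (1 - p) ^ (M ^ 2) ≤ Ex n p (Fp v r f s) * Ex n p (Fp w r g t) * tau n p := by
  have hp1' : p ≤ 1 := hp1.le
  have hEF : 0 ≤ Ex n p (Fp v r f s) := Ex_nonneg hp0 hp1' (Fp_nonneg v r f hf s)
  have hEG : 0 ≤ Ex n p (Fp w r g t) := Ex_nonneg hp0 hp1' (Fp_nonneg w r g hg t)
  have hrhs : 0 ≤ Ex n p (Fp v r f s) * Ex n p (Fp w r g t) * tau n p :=
    mul_nonneg (mul_nonneg hEF hEG) (tau_nonneg hp0 hp1')
  have triv : ((∀ G, Fp v r f s G = 0) ∨ (∀ G, Fp w r g t G = 0)) →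
      Ex n p (fun G => (Fp v r f s G * Fp w r g t G) * ind (RU ({z | z ∉ s.1 ∧ z ∉ t.1} ∪ {x, y}) G x y)) *
      (1 - p) ^ (M ^ 2) ≤ Ex n p (Fp v r f s) * Ex n p (Fp w r g t) * tau n p := by
    intro h
    rw [Ex_zero_of p (f := fun G => (Fp v r f s G * Fp w r g t G) *
      ind (RU ({z | z ∉ s.1 ∧ z ∉ t.1} ∪ {x, y}) G x y)), zero_mul]
    · exact hrhs
    · intro G
      rcases h with h | h
      · rw [h G, zero_mul, zero_mul]
      · rw [h G, mul_zero, zero_mul]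
  by_cases hF0 : ∀ G, Fp v r f s G = 0
  · exact triv (Or.inl hF0)
  by_cases hG0 : ∀ G, Fp w r g t G = 0
  · exact triv (Or.inr hG0)
  push Not at hF0 hG0
  obtain ⟨G1, hG1⟩ := hF0
  obtain ⟨G2, hG2⟩ := hG0
  obtain ⟨f1, b1, b1'⟩ := Fp_ne hG1
  obtain ⟨f2, b2, b2'⟩ := Fp_ne hG2
  have hSS : s.2 ⊆ s.1 := by rw [← b1, ← b1']; exact ball_sub G1 v r
  have hTT : t.2 ⊆ t.1 := by rw [← b2, ← b2']; exact ball_sub G2 w r
  have cS : s.1.card ≤ M := by
    by_contra hc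
    push Not at hc
    exact f1 (Mf G1 (by rw [b1]; exact hc))
  have cT : t.1.card ≤ M := by
    by_contra hc
    push Not at hc
    exact f2 (Mg G2 (by rw [b2]; exact hc))
  have hne : ∀ z, z ∈ s.1 → z ∉ t.1 := fun z hz hz' => (Finset.disjoint_left.1 hST) hz hz'
  rw [Finset.mem_sdiff] at hx hy
  have hxy : x ≠ y := fun h => hne x hx.1 (h ▸ hy.1)
  -- independence
  have dF : DepOn (DS s.1 s.2) (Fp v r f s) := h4 n v r f s.1 s.2 hr bf
  have dG : DepOn (DS t.1 t.2) (Fp w r g t) := h4 n w r g t.1 t.2 hr bg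
  set U : Set (Fin n) := {z | z ∉ s.1 ∧ z ∉ t.1} ∪ {x, y} with hU
  have dR := (h7 n x y U).1
  have hUS : ∀ a, a ∈ U → a ∈ s.1 → a = x := by
    intro a ha ha'
    rcases ha with ha | ha
    · exact absurd ha' ha.1
    · rcases ha with ha | ha
      · exact ha
      · exact absurd hy.1 (hne y (by rw [← (ha : a = y)]; exact ha'))
  have hUT : ∀ a, a ∈ U → a ∈ t.1 → a = y := by
    intro a ha ha'
    rcases ha with ha | ha
    · exact absurd ha' ha.2
    · rcases ha with ha | ha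
      · exact absurd ((ha : a = x) ▸ ha') (hne x hx.1)
      · exact ha
  have hdisj : Disjoint ((DS s.1 s.2 ∪ DS t.1 t.2) ∩ {e | ¬ e.IsDiag})
      ({e : Sym2 (Fin n) | ∀ a ∈ e, a ∈ U} ∩ {e | ¬ e.IsDiag}) := by
    rw [Set.disjoint_left]
    rintro e ⟨he, hed⟩ ⟨heU, _⟩
    induction e using Sym2.ind with
    | _ a b =>
      have hab : a ≠ b := fun h => hed (by rw [h]; exact Sym2.mk_isDiag_iff.2 rfl)
      have haU : a ∈ U := heU a (Sym2.mem_mk_left a b)
      have hbU : b ∈ U := heU b (Sym2.mem_mk_right a b)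
      simp only [DS, Set.mem_union, Set.mem_ofPred_eq, Sym2.mem_iff, forall_eq_or_imp, forall_eq,
        exists_eq_or_imp, exists_eq_left] at he
      rcases he with (⟨ha, hb⟩ | ha | hb) | (⟨ha, hb⟩ | ha | hb)
      · exact hab ((hUS a haU ha).trans (hUS b hbU hb).symm)
      · exact hx.2 (hUS a haU (hSS ha) ▸ ha)
      · exact hx.2 (hUS b hbU (hSS hb) ▸ hb)
      · exact hab ((hUT a haU ha).trans (hUT b hbU hb).symm)
      · exact hy.2 (hUT a haU (hTT ha) ▸ ha)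
      · exact hy.2 (hUT b hbU (hTT hb) ▸ hb)
  have e1 : Ex n p (fun G => (Fp v r f s G * Fp w r g t G) * ind (RU U G x y)) =
      Ex n p (fun G => Fp v r f s G * Fp w r g t G) * Ex n p (fun G => ind (RU U G x y)) :=
    h1 n p _ _ (fun G => Fp v r f s G * Fp w r g t G) (fun G => ind (RU U G x y))
      (depOn_nd (depOn_mul dF dG)) (depOn_nd dR) hdisj
  have e2 : Ex n p (fun G => ind (RU U G x y)) ≤ tau n p := by
    rw [← (h8 n p).1 x y hxy]
    exact Ex_mono hp0 hp1' fun G => ind_mono ((h7 n x y U).2.1 G)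
  -- overlap
  let O : Finset (Sym2 (Fin n)) := (pairs n).filter fun e => e ∈ DS s.1 s.2 ∧ e ∈ DS t.1 t.2
  have hO : ∀ e ∈ O, ∃ a ∈ s.2, ∃ b ∈ t.2, e = s(a, b) := by
    intro e he
    have he' := (Finset.mem_filter.1 he).2
    exact sym2_cases hSS hTT hST he'.1 he'.2
  have oF : ∀ G, Fp v r f s G ≠ 0 → ∀ e ∈ O, e ∉ G.edgeSet := by
    intro G hG e he hee
    obtain ⟨_, c1, c2⟩ := Fp_ne hG
    obtain ⟨a, ha, b, hb, rfl⟩ := hO e he
    rw [SimpleGraph.mem_edgeSet] at hee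
    have h := (h3 n G G v r hr fun _ _ => Iff.rfl).2 a (by rw [c2]; exact ha) b hee
    rw [c1] at h
    exact hne b h (hTT hb)
  have oG : ∀ G, Fp w r g t G ≠ 0 → ∀ e ∈ O, e ∉ G.edgeSet := by
    intro G hG e he hee
    obtain ⟨_, c1, c2⟩ := Fp_ne hG
    obtain ⟨a, ha, b, hb, rfl⟩ := hO e he
    rw [SimpleGraph.mem_edgeSet] at hee
    have h := (h3 n G G w r hr fun _ _ => Iff.rfl).2 b (by rw [c2]; exact hb) a hee.symm
    rw [c1] at h
    exact hne a (hSS ha) h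
  have e3 : Ex n p (fun G => Fp v r f s G * Fp w r g t G) * (1 - p) ^ O.card =
      Ex n p (Fp v r f s) * Ex n p (Fp w r g t) := by
    refine h2 n p (DS s.1 s.2) (DS t.1 t.2) O (Fp v r f s) (Fp w r g t) (Finset.filter_subset _ _) ?_ dF dG oF oG
    intro e he
    exact ⟨fun h => (Finset.mem_filter.1 h).2, fun h => Finset.mem_filter.2 ⟨he, h⟩⟩
  have cO : O.card ≤ M ^ 2 := by
    have : O ⊆ (s.2 ×ˢ t.2).image fun q => s(q.1, q.2) := by
      intro e he
      obtain ⟨a, ha, b, hb, hab⟩ := hO e he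
      exact Finset.mem_image.2 ⟨(a, b), Finset.mem_product.2 ⟨ha, hb⟩, hab.symm⟩
    calc O.card ≤ _ := Finset.card_le_card this
      _ ≤ (s.2 ×ˢ t.2).card := Finset.card_image_le
      _ = s.2.card * t.2.card := Finset.card_product _ _
      _ ≤ M * M := Nat.mul_le_mul ((Finset.card_le_card hSS).trans cS) ((Finset.card_le_card hTT).trans cT)
      _ = M ^ 2 := (sq M).symm
  have hq : (1 - p) ^ (M ^ 2) ≤ (1 - p) ^ O.card :=
    pow_le_pow_of_le_one (by linarith) (by linarith) cO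
  have hFG : 0 ≤ Ex n p (fun G => Fp v r f s G * Fp w r g t G) :=
    Ex_nonneg hp0 hp1' fun G => mul_nonneg (Fp_nonneg v r f hf s G) (Fp_nonneg w r g hg t G)
  have hpw : 0 ≤ (1 - p) ^ (M ^ 2) := pow_nonneg (by linarith) _
  calc Ex n p (fun G => (Fp v r f s G * Fp w r g t G) * ind (RU U G x y)) * (1 - p) ^ (M ^ 2)
      = Ex n p (fun G => Fp v r f s G * Fp w r g t G) * (1 - p) ^ (M ^ 2) *
        Ex n p (fun G => ind (RU U G x y)) := by rw [e1]; ring
    _ ≤ Ex n p (fun G => Fp v r f s G * Fp w r g t G) * (1 - p) ^ (M ^ 2) * tau n p :=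
        mul_le_mul_of_nonneg_left e2 (mul_nonneg hFG hpw)
    _ ≤ Ex n p (fun G => Fp v r f s G * Fp w r g t G) * (1 - p) ^ O.card * tau n p :=
        mul_le_mul_of_nonneg_right (mul_le_mul_of_nonneg_left hq hFG) (tau_nonneg hp0 hp1')
    _ = _ := by rw [e3]

theorem t_TWO (h1 : S_IND) (h2 : S_OVL) (h3 : S_DET) (h4 : S_DEP) (h5 : S_BM) (h6 : S_EXIT2) (h7 : S_RU)
    (h8 : S_TAU) : S_TWO := by
  intro n p v w r M f g hp0 hp1 hr hf hg bf bg Mf Mg
  have hp1' : p ≤ 1 := hp1.le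
  let P := Finset (Fin n) × Finset (Fin n)
  let C : P → P → Fin n → Fin n → SimpleGraph (Fin n) → ℝ := fun s t x y G =>
    ind (Disjoint s.1 t.1 ∧ x ∈ s.1 \ s.2 ∧ y ∈ t.1 \ t.2) *
      ((Fp v r f s G * Fp w r g t G) * ind (RU ({z | z ∉ s.1 ∧ z ∉ t.1} ∪ {x, y}) G x y))
  have hC : ∀ s t x y G, 0 ≤ C s t x y G := fun s t x y G =>
    mul_nonneg (ind_nonneg _) (mul_nonneg (mul_nonneg (Fp_nonneg v r f hf s G) (Fp_nonneg w r g hg t G))
      (ind_nonneg _))
  have step1 : ∀ G, f G * g G * ind (Disjoint (ball G v r) (ball G w r) ∧ G.Reachable v w) ≤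
      ∑ s : P, ∑ t : P, ∑ x : Fin n, ∑ y : Fin n, C s t x y G := by
    intro G
    by_cases hG : Disjoint (ball G v r) (ball G w r) ∧ G.Reachable v w
    · obtain ⟨x, hx, y, hy, hxy⟩ := h6 n G v w r hr hG.2 hG.1
      rw [(h5 n v r hr).1 G] at hx
      rw [(h5 n w r hr).1 G] at hy
      have hval : f G * g G * ind (Disjoint (ball G v r) (ball G w r) ∧ G.Reachable v w) =
          C (ball G v r, ball G v (r - 1)) (ball G w r, ball G w (r - 1)) x y G := by
        show _ = ind _ * ((Fp v r f _ G * Fp w r g _ G) * ind _)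
        unfold Fp
        rw [ind_pos' hG, ind_pos' (⟨hG.1, hx, hy⟩ : Disjoint (ball G v r) (ball G w r) ∧
          x ∈ ball G v r \ ball G v (r - 1) ∧ y ∈ ball G w r \ ball G w (r - 1)), ind_pos' ⟨rfl, rfl⟩,
          ind_pos' ⟨rfl, rfl⟩, ind_pos' hxy]
        ring
      rw [hval]
      refine le_trans ?_ (Finset.single_le_sum (f := fun s : P => ∑ t : P, ∑ x : Fin n, ∑ y : Fin n, C s t x y G)
        (fun s _ => Finset.sum_nonneg fun t _ => Finset.sum_nonneg fun x _ => Finset.sum_nonneg fun y _ =>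
          hC s t x y G) (Finset.mem_univ (ball G v r, ball G v (r - 1))))
      refine le_trans ?_ (Finset.single_le_sum (f := fun t : P => ∑ x : Fin n, ∑ y : Fin n,
        C (ball G v r, ball G v (r - 1)) t x y G) (fun t _ => Finset.sum_nonneg fun x _ =>
          Finset.sum_nonneg fun y _ => hC _ t x y G) (Finset.mem_univ (ball G w r, ball G w (r - 1))))
      refine le_trans ?_ (Finset.single_le_sum (f := fun x : Fin n => ∑ y : Fin n,
        C (ball G v r, ball G v (r - 1)) (ball G w r, ball G w (r - 1)) x y G) (fun x _ =>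
          Finset.sum_nonneg fun y _ => hC _ _ x y G) (Finset.mem_univ x))
      exact Finset.single_le_sum (f := fun y : Fin n =>
        C (ball G v r, ball G v (r - 1)) (ball G w r, ball G w (r - 1)) x y G) (fun y _ => hC _ _ x y G)
          (Finset.mem_univ y)
    · rw [ind_neg' hG, mul_zero]
      exact Finset.sum_nonneg fun s _ => Finset.sum_nonneg fun t _ => Finset.sum_nonneg fun x _ =>
        Finset.sum_nonneg fun y _ => hC s t x y G
  have step2 : Ex n p (fun G => f G * g G * ind (Disjoint (ball G v r) (ball G w r) ∧ G.Reachable v w)) ≤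
      ∑ s : P, ∑ t : P, ∑ x : Fin n, ∑ y : Fin n, Ex n p (C s t x y) := by
    refine (Ex_mono hp0 hp1' step1).trans (le_of_eq ?_)
    rw [Ex_sum]
    refine Finset.sum_congr rfl fun s _ => ?_
    rw [Ex_sum]
    refine Finset.sum_congr rfl fun t _ => ?_
    rw [Ex_sum]
    refine Finset.sum_congr rfl fun x _ => ?_
    rw [Ex_sum]
  have step3 : ∀ (s t : P) (x y : Fin n), Ex n p (C s t x y) * (1 - p) ^ (M ^ 2) ≤
      (ind (x ∈ s.1 \ s.2) * Ex n p (Fp v r f s)) * (ind (y ∈ t.1 \ t.2) * Ex n p (Fp w r g t)) * tau n p := by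
    intro s t x y
    have hEF : 0 ≤ Ex n p (Fp v r f s) := Ex_nonneg hp0 hp1' (Fp_nonneg v r f hf s)
    have hEG : 0 ≤ Ex n p (Fp w r g t) := Ex_nonneg hp0 hp1' (Fp_nonneg w r g hg t)
    have hc : Ex n p (C s t x y) = ind (Disjoint s.1 t.1 ∧ x ∈ s.1 \ s.2 ∧ y ∈ t.1 \ t.2) *
        Ex n p (fun G => (Fp v r f s G * Fp w r g t G) * ind (RU ({z | z ∉ s.1 ∧ z ∉ t.1} ∪ {x, y}) G x y)) :=
      Ex_mul p _ _
    rw [hc]
    by_cases h : Disjoint s.1 t.1 ∧ x ∈ s.1 \ s.2 ∧ y ∈ t.1 \ t.2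
    · rw [ind_pos' h, ind_pos' h.2.1, ind_pos' h.2.2, one_mul, one_mul, one_mul]
      exact piece h1 h2 h3 h4 h7 h8 hp0 hp1 hr hf hg bf bg Mf Mg s t x y h.1 h.2.1 h.2.2
    · rw [ind_neg' h, zero_mul, zero_mul]
      exact mul_nonneg (mul_nonneg (mul_nonneg (ind_nonneg _) hEF) (mul_nonneg (ind_nonneg _) hEG))
        (tau_nonneg hp0 hp1')
  have hpw : 0 ≤ (1 - p) ^ (M ^ 2) := pow_nonneg (by linarith) _
  calc Ex n p (fun G => f G * g G * ind (Disjoint (ball G v r) (ball G w r) ∧ G.Reachable v w)) *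
        (1 - p) ^ (M ^ 2)
      ≤ (∑ s : P, ∑ t : P, ∑ x : Fin n, ∑ y : Fin n, Ex n p (C s t x y)) * (1 - p) ^ (M ^ 2) :=
        mul_le_mul_of_nonneg_right step2 hpw
    _ = ∑ s : P, ∑ t : P, ∑ x : Fin n, ∑ y : Fin n, Ex n p (C s t x y) * (1 - p) ^ (M ^ 2) := by
        simp only [Finset.sum_mul]
    _ ≤ ∑ s : P, ∑ t : P, ∑ x : Fin n, ∑ y : Fin n, (ind (x ∈ s.1 \ s.2) * Ex n p (Fp v r f s)) *
          (ind (y ∈ t.1 \ t.2) * Ex n p (Fp w r g t)) * tau n p :=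
        Finset.sum_le_sum fun s _ => Finset.sum_le_sum fun t _ => Finset.sum_le_sum fun x _ =>
          Finset.sum_le_sum fun y _ => step3 s t x y
    _ = (∑ s : P, ∑ x : Fin n, (ind (x ∈ s.1 \ s.2) * Ex n p (Fp v r f s))) *
          (∑ t : P, ∑ y : Fin n, (ind (y ∈ t.1 \ t.2) * Ex n p (Fp w r g t))) * tau n p := by
        rw [Finset.sum_mul_sum, Finset.sum_mul]
        refine Finset.sum_congr rfl fun s _ => ?_
        rw [Finset.sum_mul]
        refine Finset.sum_congr rfl fun t _ => ?_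
        rw [Finset.sum_mul_sum, Finset.sum_mul]
        refine Finset.sum_congr rfl fun x _ => ?_
        rw [Finset.sum_mul]
    _ = _ := by
        rw [sum_Fp p v r f hr h5, sum_Fp p w r g hr h5]

end Q210.KT.TWO
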